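import Pool.Agent.W933.DD.Clique

set_option autoImplicit false

/-!
Circuits for the clique function in which the conjunctions are decomposable with respect to the
edges of a matching and the disjunctions are deterministic have exponential size or exponentially
many chains of wide negations.
-/

namespace Pool.Agent.Results.MP_0a1b52_lc.NestedNegations

open Pool.Agent.W933.DD

theorem result (M r s k : ℕ) (hM : 1 ≤ M) (hk : 2 * M ≤ k) (hkr : k ≤ 2 * M + r)
    (C : Circ (4 * M) s (Sym2 (Vtx (4 * M) (Fin r)) → Bool)) (d : Fin s → ℕ) (hd : C.NegDepth d)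
    (out : Fin s)
    (h : ∀ (x : Fin (4 * M) → Bool) (w : Sym2 (Vtx (4 * M) (Fin r)) → Bool),
      C.val out x w = true ↔ ¬ (graphOf x w).CliqueFree k) :
    225 ^ M ≤ 4 * (s * ∑ j ∈ Finset.range (d out + 1), C.nots.card.choose j) ^ 2 *
      ((4 * M + 1) * 217 ^ M) :=
  clique_bound hM k hk hkr C d hd out h

end Pool.Agent.Results.MP_0a1b52_lc.NestedNegations
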